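import Pool.Agent.W555.GL.Stm

/-! GL-ROB (helper782): all atoms but at most one are starting points of flags avoiding a given set
of fewer than `κ` flats. -/

set_option autoImplicit false

namespace Pool.Agent.W782.GL

open Cardinal Pool.Agent.W555.GL

variable {L : Type} [CompleteLattice L] {rk : L → ℕ} {r : ℕ}

theorem rk_mono (h : RkData L rk r) {x y : L} (hxy : x ≤ y) : rk x ≤ rk y := by
  rcases eq_or_lt_of_le hxy with e | e
  · rw [e]
  · exact (h.mono x y e).le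

theorem rk_eq (h : RkData L rk r) {x y : L} (hxy : x ≤ y) (e : rk y ≤ rk x) : x = y := by
  rcases eq_or_lt_of_le hxy with e' | e'
  · exact e'
  · exact absurd (h.mono x y e') (by omega)

theorem rk_atom (h : RkData L rk r) {a : L} (ha : IsAtom a) : rk a = 1 := by
  have h1 := h.atom ⊥ a ha (fun h1 => ha.1 (le_bot_iff.1 h1))
  rw [bot_sup_eq, h.bot] at h1
  exact h1

theorem ext (hp : StPair) (h : RkData L rk r) {F Y : L} (hFY : Compl rk r F Y) {T : ℕ → L}
    (hT : IsTower rk (rk Y) T) (hTY : T (rk Y) = Y) {s0 lo : ℕ} (hs0 : s0 ≤ rk Y)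
    (hlo : lo < rk F) {c' : Set L} (hc' : IsFlag rk lo (rk F) c') (hcF : ∀ x ∈ c', x ≤ F)
    {S : Set L} (hS : Disjoint c' {G | G ≤ F ∧ ∃ s ≤ rk Y, G ⊔ T s ∈ S}) :
    ∃ c : Set L, IsFlag rk (lo + s0) r c ∧ (∀ x ∈ c, ∃ G ∈ c', G ⊔ T s0 ≤ x) ∧ Disjoint c S := by
  obtain ⟨hch, hrk, hex⟩ := hc'
  have hTs : ∀ s ≤ rk Y, T s ≤ Y := by
    intro s hs
    have := hT.2 s (rk Y) hs le_rfl
    rwa [hTY] at this
  have hr : ∀ G ∈ c', ∀ s ≤ rk Y, rk (G ⊔ T s) = rk G + s := by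
    intro G hG s hs
    have := (hp L rk r h F Y hFY G (T s) (hcF G hG) (hTs s hs)).1
    rw [this, hT.1 s hs]
  have hrF : rk F + rk Y = r := hFY.2
  have htop : ∀ G ∈ c', ∀ G' ∈ c', rk G' + 1 = rk F → G ≤ G' := by
    intro G hG G' hG' e
    rcases eq_or_ne G G' with e1 | e1
    · rw [e1]
    · rcases hch hG hG' e1 with h1 | h1
      · exact h1
      · have h1 : G' ≤ G := h1
        have h2 := (hrk G hG).2
        exact (rk_eq h h1 (by omega)).symm.le
  refine ⟨{x | ∃ G ∈ c', ∃ s, s0 ≤ s ∧ s ≤ rk Y ∧ x = G ⊔ T s ∧ (s = s0 ∨ rk G + 1 = rk F)},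
    ⟨?_, ?_, ?_⟩, ?_, ?_⟩
  · rintro x ⟨G, hG, s, h1, h2, rfl, h3⟩ x' ⟨G', hG', s', h1', h2', rfl, h3'⟩ _
    rcases h3 with h3 | h3
    · rcases h3' with h3' | h3'
      · subst h3; subst h3'
        rcases eq_or_ne G G' with e1 | e1
        · left; rw [e1]
        · rcases hch hG hG' e1 with h5 | h5
          · left; exact sup_le_sup_right h5 _
          · right; exact sup_le_sup_right h5 _
      · left
        exact sup_le_sup (htop G hG G' hG' h3') (hT.2 s s' (by omega) h2')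
    · rcases h3' with h3' | h3'
      · right
        exact sup_le_sup (htop G' hG' G hG h3) (hT.2 s' s (by omega) h2)
      · rcases le_total s s' with h5 | h5
        · left
          exact sup_le_sup (htop G hG G' hG' h3') (hT.2 s s' h5 h2')
        · right
          exact sup_le_sup (htop G' hG' G hG h3) (hT.2 s' s h5 h2)
  · rintro x ⟨G, hG, s, h1, h2, rfl, h3⟩
    rw [hr G hG s h2]
    have h4 := hrk G hG
    rcases h3 with h3 | h3 <;> omega
  · intro i h1 h2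
    by_cases hi : i < rk F + s0
    · obtain ⟨G, hG, e⟩ := hex (i - s0) (by omega) (by omega)
      exact ⟨G ⊔ T s0, ⟨G, hG, s0, le_rfl, hs0, rfl, Or.inl rfl⟩, by rw [hr G hG s0 hs0]; omega⟩
    · obtain ⟨G, hG, e⟩ := hex (rk F - 1) (by omega) (by omega)
      have h3 : i - (rk F - 1) ≤ rk Y := by omega
      exact ⟨G ⊔ T (i - (rk F - 1)), ⟨G, hG, _, by omega, h3, rfl, Or.inr (by omega)⟩, by
        rw [hr G hG _ h3]; omega⟩
  · rintro x ⟨G, hG, s, h1, h2, rfl, h3⟩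
    exact ⟨G, hG, sup_le_sup_left (hT.2 s0 s h1 h2) _⟩
  · rw [Set.disjoint_left]
    rintro x ⟨G, hG, s, h1, h2, rfl, h3⟩ hx
    exact Set.disjoint_left.1 hS hG ⟨hcF G hG, s, h2, hx⟩

theorem rob (hp : StPair) (hta : StTowA) (htb : StTowB) (hb : StBad) (hc : StChain) : StRob := by
  intro L _ rk r h κ F hκ hF h3 hmin
  have hcb : #(covs F ⊥) = κ := by
    rw [← hF]
    congr 2
    unfold covs pts
    ext D
    simp only [Set.mem_setOf_eq, bot_covBy_iff]
  have hcard : ∀ (Y : L) (T : ℕ → L) (S : Set L), Compl rk r F Y → IsTower rk (rk Y) T →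
      T (rk Y) = Y → #S < κ → #({G | G ≤ F ∧ ∃ s ≤ rk Y, G ⊔ T s ∈ S} : Set L) < κ := by
    intro Y T S hFY hT hTY hS
    refine lt_of_le_of_lt ?_ hS
    refine le_trans (Cardinal.mk_le_mk_of_subset (t := (fun x => x ⊓ F) '' S) ?_) Cardinal.mk_image_le
    rintro G ⟨hG, s, hs, hGs⟩
    refine ⟨_, hGs, ?_⟩
    have h1 := hT.2 s (rk Y) hs le_rfl
    rw [hTY] at h1
    exact (hp L rk r h F Y hFY G (T s) hG h1).2.1
  have hg : ∃ g : L, ∀ e : L, IsAtom e → e ≤ F → e ≠ g → κ ≤ #(covs F e) := by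
    by_cases hex : ∃ g : L, IsAtom g ∧ g ≤ F ∧ #(covs F g) < κ
    · obtain ⟨g, hg1, hg2, hg3⟩ := hex
      refine ⟨g, fun e he heF hne => ?_⟩
      by_contra hlt
      rw [not_le] at hlt
      have := hb L rk r h κ F hκ hmin ⊥ g e ⟨bot_covBy_iff.2 hg1, hg2⟩ ⟨bot_covBy_iff.2 he, heF⟩
        hne.symm (by rw [h.bot]; omega) hg3 hlt
      rw [hcb] at this
      exact lt_irrefl _ this
    · refine ⟨⊤, fun e he heF _ => ?_⟩
      by_contra hlt
      rw [not_le] at hlt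
      exact hex ⟨e, he, heF, hlt⟩
  obtain ⟨g, hg⟩ := hg
  refine ⟨g, fun e he hne S hS => ?_⟩
  by_cases heF : e ≤ F
  · obtain ⟨Y, hFY⟩ := (htb L rk r h F).1
    obtain ⟨T, hT, hT0, hTY⟩ := hta L rk r h ⊥ Y bot_le
    rw [h.bot] at hT0
    obtain ⟨c', hc1, hc2, hc3⟩ := hc L rk r h κ F hκ hmin e heF (by rw [rk_atom h he]; omega)
      (hg e he heF hne) _ (hcard Y T S hFY hT hTY hS)
    rw [rk_atom h he] at hc1
    obtain ⟨c, h4, h5, h6⟩ := ext hp h hFY hT hTY (Nat.zero_le _) (by omega) hc1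
      (fun x hx => (hc2 x hx).2) hc3
    refine ⟨c, h4, fun x hx => ?_, h6⟩
    obtain ⟨G, hG, hGx⟩ := h5 x hx
    exact le_trans (hc2 G hG).1 (le_trans le_sup_left hGx)
  · obtain ⟨Y, hFY, heY⟩ := (htb L rk r h F).2 e he heF
    obtain ⟨T, hT, hT1, hTY⟩ := hta L rk r h e Y heY
    rw [rk_atom h he] at hT1
    obtain ⟨c', hc1, hc2, hc3⟩ := hc L rk r h κ F hκ hmin ⊥ bot_le (by rw [h.bot]; omega)
      hcb.ge _ (hcard Y T S hFY hT hTY hS)
    rw [h.bot] at hc1
    have hY1 : 1 ≤ rk Y := by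
      have := rk_mono h heY
      rw [rk_atom h he] at this
      exact this
    obtain ⟨c, h4, h5, h6⟩ := ext hp h hFY hT hTY hY1 (by omega) hc1
      (fun x hx => (hc2 x hx).2) hc3
    refine ⟨c, h4, fun x hx => ?_, h6⟩
    obtain ⟨G, hG, hGx⟩ := h5 x hx
    rw [hT1] at hGx
    exact le_trans le_sup_right hGx

end Pool.Agent.W782.GL
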